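import Pool.Agent.W314.BA.Lat

/-! MP_f2742c_an: covering by large balls. -/

set_option autoImplicit false

open MeasureTheory Set Filter Topology Real
open scoped ENNReal NNReal

namespace Pool.Agent.W54.BA

open Pool.Agent.W745 (NN FR HM kk dg)
open Pool.Agent.W314.BA

noncomputable section

lemma hF_ne (F : Set G) (hF : MeasurableSet F) (hp : IsProbabilityMeasure (muL F)) :
    hm F ≠ 0 ∧ hm F ≠ ⊤ ∧ ∀ S : Set F, MeasurableSet S →
      hm F * muL F S = hm (((↑) : F → G) '' S) := by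
  have he : MeasurableEmbedding ((↑) : F → G) := MeasurableEmbedding.subtype_coe hF
  have h1 : ∀ S : Set F, muL F S = (hm F)⁻¹ * hm (((↑) : F → G) '' S) := by
    intro S
    unfold muL
    rw [Measure.smul_apply, he.comap_apply, smul_eq_mul]
  have h2 := hp.measure_univ
  rw [h1, image_univ, Subtype.range_coe] at h2
  have h0 : hm F ≠ 0 := by
    intro h
    rw [h, mul_zero] at h2
    exact zero_ne_one h2
  have ht : hm F ≠ ⊤ := by
    intro h
    rw [h, ENNReal.inv_top, zero_mul] at h2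
    exact zero_ne_one h2
  refine ⟨h0, ht, fun S _ => ?_⟩
  rw [h1, ← mul_assoc, ENNReal.mul_inv_cancel h0 ht, one_mul]

theorem main (hA : LatAStmt) : LatCStmt := by
  intro Γ σ F h
  obtain ⟨hp, hred, -⟩ := hA Γ σ F h
  obtain ⟨γ₀, hγ, hd⟩ := h.nontriv
  obtain ⟨R, hR⟩ := h.F_bdd
  obtain ⟨h0, ht, hmu⟩ := hF_ne F h.F_meas hp
  have hσ1 : σ 1 = 0 := by
    have := h.σ_mul 1 1 Γ.one_mem
    rw [mul_one] at this
    omega
  have hg1 := one_le_hh γ₀
  refine ⟨4 * R ^ 2 * (1 + hh γ₀) + 2, by nlinarith [sq_nonneg R], σ γ₀, hd, hm F, h0,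
    fun y => σ (y : G), h.σ_meas.comp measurable_subtype_coe, ?_⟩
  intro y
  set x : ℝ := 4 * R ^ 2 * (1 + hh γ₀) + 2 with hx
  have hy : hh (y : G) ≤ R := hR y.2
  have hy1 := one_le_hh (y : G)
  have m1 : Measurable (fun y' : F => (y', σ (y' : G) - σ (y : G))) :=
    measurable_id.prodMk ((h.σ_meas.comp measurable_subtype_coe).sub_const _)
  have m2 : Measurable (fun y' : F => (y', σ (y' : G) - σ (y : G) + σ γ₀)) :=
    measurable_id.prodMk (((h.σ_meas.comp measurable_subtype_coe).sub_const _).add_const _)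
  have mr : Measurable (fun g : G => g * (y : G)) := (hm_mul_right (y : G)).measurable
  have m3' : Measurable (fun u : G => (redL h u, σ u - σ (y : G))) :=
    hred.prodMk (h.σ_meas.sub_const _)
  have m3 : Measurable (fun g : G => (redL h (g * (y : G)), cL σ F g y)) := m3'.comp mr
  rw [Measure.le_iff]
  intro B hB
  rw [Measure.smul_apply, Measure.add_apply, Measure.map_apply m1 hB, Measure.map_apply m2 hB,
    Measure.map_apply m3 hB, Measure.restrict_apply (m3 hB), smul_eq_mul, mul_add,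
    hmu _ (m1 hB), hmu _ (m2 hB)]
  set S1 : Set F := (fun y' : F => (y', σ (y' : G) - σ (y : G))) ⁻¹' B with hS1
  set S2 : Set F := (fun y' : F => (y', σ (y' : G) - σ (y : G) + σ γ₀)) ⁻¹' B with hS2
  have he : MeasurableEmbedding ((↑) : F → G) := MeasurableEmbedding.subtype_coe h.F_meas
  have mS1 : MeasurableSet (((↑) : F → G) '' S1) := he.measurableSet_image.2 (m1 hB)
  have mS2 : MeasurableSet (((↑) : F → G) '' S2) := he.measurableSet_image.2 (m2 hB)
  set E2 : Set G := (fun u : G => u * γ₀⁻¹) ⁻¹' (((↑) : F → G) '' S2) with hE2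
  have mE2 : MeasurableSet E2 := (hm_mul_right γ₀⁻¹).measurable mS2
  have e2 : hm E2 = hm (((↑) : F → G) '' S2) :=
    (hm_mul_right γ₀⁻¹).measure_preimage mS2.nullMeasurableSet
  set T : Set G := {u : G | (redL h u, σ u - σ (y : G)) ∈ B ∧ u * (y : G)⁻¹ ∈ Bx x} with hT
  have mT : MeasurableSet T := by
    refine MeasurableSet.inter (m3' hB) ?_
    exact (hm_mul_right (y : G)⁻¹).measurable (Bx_meas x)
  have eT : (fun g : G => (redL h (g * (y : G)), cL σ F g y)) ⁻¹' B ∩ Bx x =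
      (fun g : G => g * (y : G)) ⁻¹' T := by
    ext g
    constructor
    · rintro ⟨h1, h2⟩
      refine ⟨h1, ?_⟩
      rwa [mul_inv_cancel_right]
    · rintro ⟨h1, h2⟩
      refine ⟨h1, ?_⟩
      rwa [mul_inv_cancel_right] at h2
  rw [eT, (hm_mul_right (y : G)).measure_preimage mT.nullMeasurableSet, ← e2]
  have hR2 : 1 ≤ R := hy1.trans hy
  have hdis : Disjoint (((↑) : F → G) '' S1) E2 := by
    rw [Set.disjoint_left]
    rintro _ ⟨u, -, rfl⟩ ⟨v, -, hv⟩
    have a1 := gamL_uniq h (u : G) 1 (by simp)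
    have a2 := gamL_uniq h (u : G) ⟨γ₀⁻¹, Γ.inv_mem hγ⟩ (by
      show (u : G) * γ₀⁻¹ ∈ F
      have : (v : G) = (u : G) * γ₀⁻¹ := hv
      rw [← this]
      exact v.2)
    rw [← a1] at a2
    have a3 : γ₀⁻¹ = 1 := congrArg Subtype.val a2
    rw [inv_eq_one] at a3
    rw [a3, hσ1] at hd
    exact hd rfl
  rw [← measure_union hdis mE2]
  apply measure_mono
  rintro u (⟨v, hv, rfl⟩ | ⟨v, hv, hv2⟩)
  · refine ⟨?_, ?_⟩
    · rw [redL_coe]
      exact hv
    · show hh _ ≤ x
      have b1 := hh_mul_le (v : G) (y : G)⁻¹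
      rw [hh_inv] at b1
      have b2 : hh (v : G) ≤ R := hR v.2
      have b3 := one_le_hh (v : G)
      rw [hx]
      nlinarith [mul_le_mul b2 hy (by linarith) (by linarith), sq_nonneg R,
        mul_nonneg (sq_nonneg R) (by linarith : (0 : ℝ) ≤ hh γ₀)]
  · have hu : u = (v : G) * γ₀ := by
      have hv3 : (v : G) = u * γ₀⁻¹ := hv2
      rw [hv3, inv_mul_cancel_right]
    refine ⟨?_, ?_⟩
    · have c1 : redL h u = v := by
        rw [hu, redL_mul h (v : G) ⟨γ₀, hγ⟩, redL_coe]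
      have c2 : σ u = σ (v : G) + σ γ₀ := by rw [hu, h.σ_mul _ _ hγ]
      rw [c1, c2]
      have c3 : (v, σ (v : G) - σ (y : G) + σ γ₀) ∈ B := hv
      have c4 : σ (v : G) + σ γ₀ - σ (y : G) = σ (v : G) - σ (y : G) + σ γ₀ := by ring
      rw [c4]
      exact c3
    · show hh _ ≤ x
      rw [hu]
      have b1 := hh_mul_le ((v : G) * γ₀) (y : G)⁻¹
      rw [hh_inv] at b1
      have b0 := hh_mul_le (v : G) γ₀
      have b2 : hh (v : G) ≤ R := hR v.2
      have b3 := one_le_hh (v : G)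
      have b4 : hh ((v : G) * γ₀) ≤ 2 * R * hh γ₀ := by nlinarith
      have b5 := one_le_hh ((v : G) * γ₀)
      have b6 : 2 * hh ((v : G) * γ₀) * hh (y : G) ≤ 2 * (2 * R * hh γ₀) * R := by
        apply mul_le_mul (by linarith) hy (by linarith)
        nlinarith
      rw [hx]
      nlinarith [sq_nonneg R]

end

end Pool.Agent.W54.BA
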